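import Pool.Agent.W809.ZQ.Stm

set_option autoImplicit false

open Set Filter Topology

namespace Pool.Agent.W571.ZQ

open Pool.Agent.W809.ZQ

/-- `n - Re tr u` -/
noncomputable def ff {n : ℕ} (u : U n) : ℝ := (n : ℝ) - (Matrix.trace (u : Mt n)).re

theorem ff_cont {n : ℕ} : Continuous (ff : U n → ℝ) := by
  unfold ff
  have h1 : Continuous (fun u : U n => Matrix.trace (u : Mt n)) :=
    Continuous.matrix_trace continuous_subtype_val
  exact continuous_const.sub (Complex.continuous_re.comp h1)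

theorem two_ff {n : ℕ} (u : U n) :
    2 * ff u = ∑ i, ∑ j, ‖(u : Mt n) i j - (1 : Mt n) i j‖ ^ 2 := by
  have hu : star (u : Mt n) * (u : Mt n) = 1 := (Matrix.mem_unitaryGroup_iff'.1 u.2)
  have h1 : Matrix.trace (star ((u : Mt n) - 1) * ((u : Mt n) - 1)) =
      ((∑ i, ∑ j, ‖(u : Mt n) i j - (1 : Mt n) i j‖ ^ 2 : ℝ) : ℂ) := by
    simp only [Matrix.trace, Matrix.diag, Matrix.mul_apply, Matrix.star_apply, Matrix.sub_apply]
    push_cast
    rw [Finset.sum_comm]
    refine Finset.sum_congr rfl fun i _ => Finset.sum_congr rfl fun j _ => ?_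
    rw [← Complex.conj_mul']
    rfl
  have h2 : Matrix.trace (star ((u : Mt n) - 1) * ((u : Mt n) - 1)) =
      2 * n - (Matrix.trace (u : Mt n) + star (Matrix.trace (u : Mt n))) := by
    have : star ((u : Mt n) - 1) * ((u : Mt n) - 1) = 1 + 1 - ((u : Mt n) + star (u : Mt n)) := by
      rw [star_sub, star_one, sub_mul, mul_sub, mul_sub, hu]
      simp only [mul_one, one_mul]
      abel
    rw [this, Matrix.trace_sub, Matrix.trace_add, Matrix.trace_add, Matrix.trace_one,
      Fintype.card_fin, Matrix.star_eq_conjTranspose, Matrix.trace_conjTranspose]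
    ring
  have h3 := congrArg Complex.re (h1.symm.trans h2)
  rw [Complex.ofReal_re] at h3
  rw [h3]
  simp [ff]
  ring

theorem ff_nonneg {n : ℕ} (u : U n) : 0 ≤ ff u := by
  have h := two_ff u
  have : 0 ≤ ∑ i, ∑ j, ‖(u : Mt n) i j - (1 : Mt n) i j‖ ^ 2 :=
    Finset.sum_nonneg fun i _ => Finset.sum_nonneg fun j _ => by positivity
  linarith

theorem ff_pos {n : ℕ} {u : U n} (hu : u ≠ 1) : 0 < ff u := by
  refine lt_of_le_of_ne (ff_nonneg u) ?_
  intro h0
  apply hu
  have h := two_ff u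
  rw [← h0, mul_zero] at h
  have h1 := (Finset.sum_eq_zero_iff_of_nonneg (fun i _ => Finset.sum_nonneg fun j _ => by
    positivity)).1 h.symm
  apply Subtype.ext
  ext i j
  have h2 := (Finset.sum_eq_zero_iff_of_nonneg (fun j _ => by positivity)).1 (h1 i (Finset.mem_univ i))
    j (Finset.mem_univ j)
  have h3 : (u : Mt n) i j - (1 : Mt n) i j = 0 := by
    rw [← norm_eq_zero]
    exact pow_eq_zero_iff (two_ne_zero) |>.1 h2
  exact sub_eq_zero.1 h3

theorem ff_one {n : ℕ} : ff (1 : U n) = 0 := by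
  simp [ff]

theorem ff_small {n : ℕ} {O : Set (U n)} (hO : O ∈ 𝓝 (1 : U n)) :
    ∃ r > (0 : ℝ), ∀ u : U n, ff u < r → u ∈ O := by
  obtain ⟨V, hVO, hV, h1⟩ := mem_nhds_iff.1 hO
  have hcomp : IsCompact Vᶜ := hV.isClosed_compl.isCompact
  rcases (Vᶜ : Set (U n)).eq_empty_or_nonempty with h | h
  · refine ⟨1, one_pos, fun u _ => hVO ?_⟩
    by_contra hu
    have : u ∈ (Vᶜ : Set (U n)) := hu
    rw [h] at this
    exact this
  · obtain ⟨u0, hu0, hmin⟩ := hcomp.exists_isMinOn h ff_cont.continuousOn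
    refine ⟨ff u0, ff_pos ?_, ?_⟩
    · rintro rfl
      exact hu0 h1
    · intro u hu
      apply hVO
      by_contra huV
      exact absurd hu (not_lt.2 (hmin huV))

theorem trace_alg {n : ℕ} (d : U n) {k : ℕ} (hk : 1 ≤ k) (hd : d ^ k = 1) :
    IsAlgebraic ℚ (Matrix.trace (d : Mt n)) := by
  rw [Matrix.trace_eq_sum_roots_charpoly]
  have hroot : ∀ μ ∈ (Matrix.charpoly (d : Mt n)).roots, IsAlgebraic ℚ μ := by
    intro μ hμ
    have h1 : (Matrix.charpoly (d : Mt n)).IsRoot μ := (Polynomial.mem_roots'.1 hμ).2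
    have hdk : (d : Mt n) ^ k = 1 := by
      have := congrArg Subtype.val hd
      simpa using this
    have h2 : μ ∈ spectrum ℂ (d : Mt n) := Matrix.mem_spectrum_of_isRoot_charpoly h1
    have h3 : μ ^ k ∈ spectrum ℂ ((d : Mt n) ^ k) := spectrum.pow_mem_pow _ k h2
    have h4 : μ ^ k = 1 := by
      rw [hdk] at h3
      have hn : Nontrivial (Mt n) := by
        by_contra hc
        rw [not_nontrivial_iff_subsingleton] at hc
        rw [spectrum.of_subsingleton] at h3
        exact h3
      rw [spectrum.one_eq] at h3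
      exact h3
    have h5 : IsIntegral ℚ μ := by
      refine ⟨Polynomial.X ^ k - 1, Polynomial.monic_X_pow_sub_C 1 (by omega), ?_⟩
      simp [h4]
    exact h5.isAlgebraic
  have hgen : ∀ s : Multiset ℂ, (∀ μ ∈ s, IsAlgebraic ℚ μ) → IsAlgebraic ℚ s.sum := by
    intro s
    induction s using Multiset.induction with
    | empty => intro _; simpa using isAlgebraic_zero
    | cons a s ih =>
      intro h
      rw [Multiset.sum_cons]
      exact (h a (Multiset.mem_cons_self a s)).add
        (ih fun μ hμ => h μ (Multiset.mem_cons_of_mem hμ))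
  exact hgen _ hroot

theorem tor : S_TOR := by
  intro n D hD O hO
  obtain ⟨r, hr, h1⟩ := ff_small hO
  have hcount : {x : ℝ | ∃ d ∈ D, ff d = x}.Countable := by
    have h2 : {z : ℂ | IsAlgebraic ℚ z}.Countable := Algebraic.countable ℚ ℂ
    refine (h2.image (fun z : ℂ => (n : ℝ) - z.re)).mono ?_
    rintro x ⟨d, hd, rfl⟩
    obtain ⟨k, hk, hdk⟩ := hD d hd
    exact ⟨_, trace_alg d hk hdk, rfl⟩
  have hdense := hcount.dense_compl ℝ
  obtain ⟨r', hr'1, hr'2⟩ := hdense.inter_open_nonempty (Ioo 0 r) isOpen_Ioo (nonempty_Ioo.2 hr)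
  have hff : Continuous (fun d : D => ff (d : U n)) := ff_cont.comp continuous_subtype_val
  have heq : {d : D | ff (d : U n) < r'} = {d : D | ff (d : U n) ≤ r'} := by
    ext d
    constructor
    · intro h
      have h' : ff (d : U n) < r' := h
      exact h'.le
    · intro h
      have h' : ff (d : U n) ≤ r' := h
      exact lt_of_le_of_ne h' fun he => hr'2 ⟨d, d.2, he⟩
  refine ⟨{d : D | ff (d : U n) < r'}, ⟨?_, ?_⟩, ?_, ?_⟩
  · rw [heq]
    exact isClosed_le hff continuous_const
  · exact isOpen_lt hff continuous_const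
  · change ff ((1 : D) : U n) < r'
    rw [Subgroup.coe_one, ff_one]
    exact hr'1.1
  · intro x hx
    exact h1 _ (lt_trans hx hr'1.2)

end Pool.Agent.W571.ZQ
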