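import Pool.Agent.W809.ZQ.Stm

set_option autoImplicit false

open Set Filter Topology

namespace Pool.Agent.W571.ZQ

open Pool.Agent.W809.ZQ

theorem unif_gen {G : Type*} [Group G] [TopologicalSpace G] [IsTopologicalGroup G] [CompactSpace G]
    {O : Set G} (hO : O ∈ 𝓝 (1 : G)) :
    ∃ O' ∈ 𝓝 (1 : G), ∀ a : G, ∀ b ∈ O', a * b * a⁻¹ * b⁻¹ ∈ O := by
  have hc : Continuous (fun p : G × G => p.1 * p.2 * p.1⁻¹ * p.2⁻¹) := by fun_prop
  obtain ⟨V, hVO, hV, h1⟩ := mem_nhds_iff.1 hO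
  have ho := hV.preimage hc
  have hsub : (univ : Set G) ×ˢ ({1} : Set G) ⊆
      (fun p : G × G => p.1 * p.2 * p.1⁻¹ * p.2⁻¹) ⁻¹' V := by
    rintro ⟨a, b⟩ ⟨-, hb⟩
    have hb' : b = 1 := hb
    subst hb'
    simpa using h1
  obtain ⟨A, B, hA, hB, hA1, hB1, hAB⟩ :=
    generalized_tube_lemma isCompact_univ isCompact_singleton ho hsub
  refine ⟨B, hB.mem_nhds (hB1 rfl), fun a b hb => hVO ?_⟩
  exact hAB (Set.mk_mem_prod (hA1 (mem_univ a)) hb)

theorem unif {n : ℕ} {O : Set (U n)} (hO : O ∈ 𝓝 (1 : U n)) :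
    ∃ O' ∈ 𝓝 (1 : U n), ∀ a : U n, ∀ b ∈ O', a * b * a⁻¹ * b⁻¹ ∈ O := unif_gen hO

theorem fin (hDET : S_DET) (hTOR : S_TOR) : S_FIN := by
  intro n C hC hPC hZM hNC hk
  obtain ⟨D, hDC, hDr, hcomm, htor⟩ := hDET n C hk
  obtain ⟨O, hO, hO1⟩ := hZM D hDC hDr (hTOR n D htor)
  obtain ⟨O', hO', h1⟩ := unif hO
  have h2 : ∀ b ∈ C, b ∈ O' → ∀ a ∈ C, a * b = b * a := by
    intro b hb hbO a ha
    have h3 := hO1 _ (hcomm a ha b hb) (h1 a b hbO)
    rw [mul_inv_eq_one, mul_inv_eq_iff_eq_mul] at h3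
    exact h3
  let Z0 : Subgroup (U n) := C ⊓ Subgroup.centralizer (C : Set (U n))
  have hZr : RelClosed Z0 C := by
    intro x hx hxc
    refine ⟨hx, ?_⟩
    have hcl : IsClosed {z : U n | ∀ a ∈ C, a * z = z * a} := by
      have : {z : U n | ∀ a ∈ C, a * z = z * a} = ⋂ a ∈ C, {z : U n | a * z = z * a} := by
        ext z; simp
      rw [this]
      exact isClosed_biInter fun a _ => isClosed_eq (by fun_prop) (by fun_prop)
    have hsub : (Z0 : Set (U n)) ⊆ {z : U n | ∀ a ∈ C, a * z = z * a} := by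
      intro z hz a ha
      exact (Subgroup.mem_centralizer_iff.1 hz.2) a ha
    have h4 := closure_minimal hsub hcl hxc
    exact Subgroup.mem_centralizer_iff.2 fun a ha => h4 a ha
  have hZne : Z0 ≠ C := by
    intro he
    obtain ⟨a, ha, b, hb, hab⟩ := hNC
    have hb' : b ∈ Z0 := he ▸ hb
    exact hab ((Subgroup.mem_centralizer_iff.1 hb'.2) a ha)
  have hZcl := hPC Z0 inf_le_left hZr hZne
  refine hC (closed_of_open (D := Z0) inf_le_left hZcl hO' ?_)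
  intro x hx hxO
  exact ⟨hx, Subgroup.mem_centralizer_iff.2 fun a ha => h2 x hx hxO a ha⟩

end Pool.Agent.W571.ZQ
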